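import Mathlib
import Pool.Agent.W2helper24.TQ.Stm2
import Pool.Agent.W2helper24.TQ.A7
import Pool.Agent.Y696.Eis

/-!
# Piece E2 of project TQ: fields generated by cube roots, ramification
-/

set_option autoImplicit false
set_option linter.unusedSectionVars false

namespace Pool.Agent.W2helper89.TQE2

open NumberField IsDedekindDomain Polynomial
open Pool.Agent.W2helper24.TQ
open Pool.Agent.Y696 (und und_lies mem_under_of_lies int_rep)

section
variable {K F : Type} [Field K] [NumberField K] [IsCyclotomicExtension {3} ℚ K]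
  [Field F] [NumberField F] [Algebra K F]

lemma exists_om (K : Type) [Field K] [NumberField K] [IsCyclotomicExtension {3} ℚ K] :
    ∃ w : K, IsPrimitiveRoot w 3 :=
  IsCyclotomicExtension.exists_isPrimitiveRoot ℚ K (Set.mem_singleton 3) (by norm_num)

lemma w_rel {w : K} (hw : IsPrimitiveRoot w 3) : w ^ 2 + w + 1 = 0 := by
  have h3 : w ^ 3 = 1 := hw.pow_eq_one
  have h4 : w ≠ 1 := hw.ne_one (by norm_num)
  have h5 : (w - 1) * (w ^ 2 + w + 1) = 0 := by linear_combination h3
  exact (mul_eq_zero.1 h5).resolve_left (sub_ne_zero.2 h4)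

lemma w_relF {w : K} (hw : IsPrimitiveRoot w 3) :
    algebraMap K F w ^ 2 + algebraMap K F w + 1 = 0 := by
  rw [← map_pow, ← map_add, ← map_one (algebraMap K F), ← map_add, w_rel hw, map_zero]

/-- the cube roots of one -/
lemma cube_one {w : K} (hw : IsPrimitiveRoot w 3) {z : F} (hz : z ^ 3 = 1) :
    z = 1 ∨ z = algebraMap K F w ∨ z = algebraMap K F w ^ 2 := by
  have h3 := w_relF (F := F) hw
  have h2 : (z - 1) * ((z - algebraMap K F w) * (z - algebraMap K F w ^ 2)) = 0 := by
    linear_combination hz + (-z ^ 2 + z * algebraMap K F w - (algebraMap K F w - 1)) * h3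
  rcases mul_eq_zero.1 h2 with h | h
  · left; exact sub_eq_zero.1 h
  · rcases mul_eq_zero.1 h with h | h
    · right; left; exact sub_eq_zero.1 h
    · right; right; exact sub_eq_zero.1 h

lemma DCls.ne {D : ℕ} (h : DCls D) : D ≠ 0 := h.1.ne'

lemma isGalois_of_gen (h : GenC K F) : IsGalois K F := by
  obtain ⟨w, hw⟩ := exists_om K
  obtain ⟨S, hS, hx⟩ := h
  have hfin : FiniteDimensional K F := Module.Finite.of_restrictScalars_finite ℚ K F
  have hwF : IsPrimitiveRoot (algebraMap K F w) 3 := hw.map_of_injective (algebraMap K F).injective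
  have hnor : Normal K F := by
    rw [normal_iff]
    intro x
    refine ⟨Algebra.IsIntegral.isIntegral x, ?_⟩
    have hxt : x ∈ IntermediateField.adjoin K S := by rw [hS]; trivial
    refine IntermediateField.splits_of_mem_adjoin K F (fun s hs => ⟨Algebra.IsIntegral.isIntegral s, ?_⟩) hxt
    obtain ⟨D, hD, hs3⟩ := hx s hs
    have h1 : (X ^ 3 - C (D : F) : F[X]).Splits := X_pow_sub_C_splits_of_isPrimitiveRoot hwF hs3
    have h2 : minpoly K s ∣ (X ^ 3 - C (D : K) : K[X]) := by
      apply minpoly.dvd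
      rw [map_sub, map_pow, aeval_X, aeval_C, hs3, map_natCast, sub_self]
    have h3 : ((X ^ 3 - C (D : K) : K[X]).map (algebraMap K F)) = X ^ 3 - C (D : F) := by
      rw [Polynomial.map_sub, Polynomial.map_pow, map_X, map_C, map_natCast]
    refine Splits.of_dvd (h3 ▸ h1) ?_ (Polynomial.map_dvd _ h2)
    rw [h3]
    exact X_pow_sub_C_ne_zero (by norm_num) _
  exact ⟨⟩

lemma g_root {w : K} (hw : IsPrimitiveRoot w 3) {s : F} {D : ℕ} (hD : D ≠ 0) (hs : s ^ 3 = (D : F))
    (g : Gal(F/K)) : g s = s ∨ g s = algebraMap K F w * s ∨ g s = algebraMap K F w ^ 2 * s := by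
  have hs0 : s ≠ 0 := by
    rintro rfl
    have : ((D : ℕ) : F) = 0 := by rw [← hs]; norm_num
    exact hD (by exact_mod_cast this)
  have h1 : (g s / s) ^ 3 = 1 := by
    rw [div_pow, ← map_pow, hs, map_natCast, div_self]
    exact_mod_cast hD
  rcases cube_one hw h1 with h | h | h
  · left; field_simp at h; exact h
  · right; left; rw [div_eq_iff hs0] at h; exact h
  · right; right; rw [div_eq_iff hs0] at h; exact h

lemma eq_one_of_fix {S : Set F} (hS : IntermediateField.adjoin K S = ⊤) (g : Gal(F/K))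
    (h : ∀ s ∈ S, g s = s) : g = 1 := by
  have h1 : IntermediateField.adjoin K S ≤ IntermediateField.fixedField (Subgroup.zpowers g) := by
    rw [IntermediateField.adjoin_le_iff]
    intro s hs
    rw [SetLike.mem_coe, IntermediateField.mem_fixedField_iff]
    intro f hf
    obtain ⟨k, rfl⟩ := Subgroup.mem_zpowers_iff.1 hf
    have hfix : g ∈ MulAction.stabilizer (Gal(F/K)) s := h s hs
    exact zpow_mem hfix k
  ext x
  have hx : x ∈ IntermediateField.fixedField (Subgroup.zpowers g) := h1 (hS ▸ trivial)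
  rw [IntermediateField.mem_fixedField_iff] at hx
  exact hx g (Subgroup.mem_zpowers g)

lemma finrank_of_gen (h : GenC K F) : ∃ n, Module.finrank K F = 3 ^ n := by
  have hG := isGalois_of_gen h
  have hfin : FiniteDimensional K F := Module.Finite.of_restrictScalars_finite ℚ K F
  obtain ⟨w, hw⟩ := exists_om K
  obtain ⟨S, hS, hx⟩ := h
  rw [← IsGalois.card_aut_eq_finrank K F]
  have : Fact (Nat.Prime 3) := ⟨Nat.prime_three⟩
  have hp : IsPGroup 3 (Gal(F/K)) := by
    intro g
    refine ⟨1, ?_⟩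
    apply eq_one_of_fix hS
    intro s hs
    obtain ⟨D, hD, hs3⟩ := hx s hs
    have hw3 : algebraMap K F w ^ 3 = 1 := by rw [← map_pow, hw.pow_eq_one, map_one]
    have e : (g ^ 3 ^ 1) s = g (g (g s)) := by
      rw [pow_one, pow_succ, pow_two]
      rfl
    rw [e]
    rcases g_root hw (DCls.ne hD) hs3 g with h1 | h1 | h1
    · rw [h1, h1, h1]
    · rw [h1, map_mul, AlgEquiv.commutes, h1, map_mul, map_mul, AlgEquiv.commutes, h1]
      linear_combination s * hw3
    · rw [h1, map_mul, map_pow, AlgEquiv.commutes, h1, map_mul, map_mul, map_pow,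
        AlgEquiv.commutes, h1]
      linear_combination s * (algebraMap K F w ^ 3 + 1) * hw3
  obtain ⟨n, hn⟩ := (IsPGroup.iff_card (p := 3)).1 hp
  exact ⟨n, hn⟩

/-- in the residue fields of the primes of `K` above `p ≡ 7` modulo `12`, `-1` is not a square -/
lemma no_sqrt {p : ℕ} (hp : p.Prime) (h7 : p % 12 = 7) (v : HeightOneSpectrum (𝓞 K))
    (hv : (p : 𝓞 K) ∈ v.asIdeal) (x : 𝓞 K) : x ^ 2 + 1 ∉ v.asIdeal := by
  intro hx
  have : Fact p.Prime := ⟨hp⟩
  obtain ⟨w, hw⟩ := exists_om K
  have hrel : hw.toInteger ^ 2 + hw.toInteger + 1 = 0 := by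
    have h3 : hw.toInteger ^ 3 = 1 := hw.toInteger_isPrimitiveRoot.pow_eq_one
    have h4 : hw.toInteger ≠ 1 := hw.toInteger_isPrimitiveRoot.ne_one (by norm_num)
    have h5 : (hw.toInteger - 1) * (hw.toInteger ^ 2 + hw.toInteger + 1) = 0 := by
      linear_combination h3
    exact (mul_eq_zero.1 h5).resolve_left (sub_ne_zero.2 h4)
  -- a root of `x² + x + 1` modulo `p`
  obtain ⟨r, hr⟩ : ∃ r : ℤ, (p : ℤ) ∣ r ^ 2 + r + 1 := by
    have hcard : 3 ∣ Nat.card (ZMod p)ˣ := by
      rw [Nat.card_eq_fintype_card, ZMod.card_units]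
      omega
    obtain ⟨u, hu⟩ := exists_prime_orderOf_dvd_card' 3 hcard
    have hu3 : (u : ZMod p) ^ 3 = 1 := by
      rw [← Units.val_pow_eq_pow_val, ← hu, pow_orderOf_eq_one, Units.val_one]
    have hu1 : (u : ZMod p) ≠ 1 := by
      intro h
      have : u = 1 := Units.ext h
      rw [this, orderOf_one] at hu
      norm_num at hu
    have h5 : ((u : ZMod p) - 1) * ((u : ZMod p) ^ 2 + u + 1) = 0 := by linear_combination hu3
    have h6 := (mul_eq_zero.1 h5).resolve_left (sub_ne_zero.2 hu1)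
    refine ⟨((u : ZMod p).val : ℤ), ?_⟩
    rw [← ZMod.intCast_zmod_eq_zero_iff_dvd]
    push_cast
    rw [ZMod.natCast_val, ZMod.cast_id]
    exact h6
  obtain ⟨a, b, hab⟩ := int_rep hw x
  have hint : ∃ t : ℤ, x - (t : 𝓞 K) ∈ v.asIdeal := by
    have h1 : (hw.toInteger - (r : 𝓞 K)) * (hw.toInteger + 1 + (r : 𝓞 K)) ∈ v.asIdeal := by
      obtain ⟨q, hq⟩ := hr
      have hq' : (r : 𝓞 K) ^ 2 + r + 1 = (p : 𝓞 K) * q := by
        have := congrArg (Int.cast : ℤ → 𝓞 K) hq
        push_cast at this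
        exact this
      have : (hw.toInteger - (r : 𝓞 K)) * (hw.toInteger + 1 + (r : 𝓞 K)) = (p : 𝓞 K) * (-q) := by
        linear_combination hrel - hq'
      rw [this]
      exact v.asIdeal.mul_mem_right _ hv
    rcases v.isPrime.mem_or_mem h1 with h | h
    · refine ⟨a + b * r, ?_⟩
      have : x - ((a + b * r : ℤ) : 𝓞 K) = (b : 𝓞 K) * (hw.toInteger - (r : 𝓞 K)) := by
        rw [hab]; push_cast; ring
      rw [this]
      exact v.asIdeal.mul_mem_left _ h
    · refine ⟨a - b * (1 + r), ?_⟩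
      have : x - ((a - b * (1 + r) : ℤ) : 𝓞 K) = (b : 𝓞 K) * (hw.toInteger + 1 + (r : 𝓞 K)) := by
        rw [hab]; push_cast; ring
      rw [this]
      exact v.asIdeal.mul_mem_left _ h
  obtain ⟨t, ht⟩ := hint
  have h2 : ((t ^ 2 + 1 : ℤ) : 𝓞 K) ∈ v.asIdeal := by
    have : ((t ^ 2 + 1 : ℤ) : 𝓞 K) = (x ^ 2 + 1) - (x + t) * (x - t) := by push_cast; ring
    rw [this]
    exact v.asIdeal.sub_mem hx (v.asIdeal.mul_mem_left _ ht)
  have h3 : (p : ℤ) ∣ t ^ 2 + 1 := by
    by_contra hnd
    have hcop : IsCoprime (p : ℤ) (t ^ 2 + 1) :=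
      (Prime.coprime_iff_not_dvd (Nat.prime_iff_prime_int.1 hp)).2 hnd
    obtain ⟨α, β, hαβ⟩ := hcop
    apply v.isPrime.ne_top
    rw [Ideal.eq_top_iff_one]
    have h4 := congrArg (Int.cast : ℤ → 𝓞 K) hαβ
    rw [Int.cast_add, Int.cast_mul, Int.cast_mul, Int.cast_one, Int.cast_natCast] at h4
    rw [← h4]
    exact v.asIdeal.add_mem (v.asIdeal.mul_mem_left _ hv) (v.asIdeal.mul_mem_left _ h2)
  have h4 : IsSquare (-1 : ZMod p) := by
    refine ⟨(t : ZMod p), ?_⟩
    have := (ZMod.intCast_zmod_eq_zero_iff_dvd (t ^ 2 + 1) p).2 h3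
    push_cast at this
    linear_combination -this
  have h5 := ZMod.mod_four_ne_three_of_sq_eq_neg_one (p := p) (y := h4.choose)
  have h6 := h4.choose_spec
  exact h5 (by rw [pow_two]; exact h6.symm) (by omega)

lemma unr_of_inertia [IsGalois K F] {w : HeightOneSpectrum (𝓞 F)}
    (h : ∀ g : Gal(F/K), (∀ x : 𝓞 F, g • x - x ∈ w.asIdeal) → g = 1) :
    Algebra.IsUnramifiedAt (𝓞 K) w.asIdeal := by
  have h1 := idx_of_inertia (und_lies (F := K) w) h
  have hlo := und_lies (F := K) w
  rw [Ideal.ramificationIdx'_eq_ramificationIdx _ _ (und (F := K) w).ne_bot] at h1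
  have h2 := (Algebra.isUnramifiedAt_iff_of_isDedekindDomain (R := 𝓞 K) (p := w.asIdeal)).2
  exact h2 h1

lemma ram_of_gen (h : GenC K F) : Ram K F := by
  have hG := isGalois_of_gen h
  obtain ⟨ω, hω⟩ := exists_om K
  intro w hw
  obtain ⟨S, hS, hx⟩ := h
  -- an element of the inertia group
  obtain ⟨g, hg, hg1⟩ : ∃ g : Gal(F/K), (∀ x : 𝓞 F, g • x - x ∈ w.asIdeal) ∧ g ≠ 1 := by
    by_contra hcon
    push Not at hcon
    exact hw (unr_of_inertia hcon)
  obtain ⟨s, hs, hgs⟩ : ∃ s ∈ S, g s ≠ s := by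
    by_contra hcon
    push Not at hcon
    exact hg1 (eq_one_of_fix hS g hcon)
  obtain ⟨D, hD, hs3⟩ := hx s hs
  -- the integer `s`
  have hsint : IsIntegral ℤ s := by
    refine IsIntegral.of_pow (n := 3) (by norm_num) ?_
    rw [hs3]
    exact isIntegral_algebraMap (R := ℤ) (x := (D : ℤ)) |> fun h => by simpa using h
  let x : 𝓞 F := ⟨s, hsint⟩
  have hx3 : x ^ 3 = (D : 𝓞 F) := by
    apply RingOfIntegers.ext
    change s ^ 3 = _
    rw [hs3]
    simp
  -- the root of unity as an integer of `F`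
  let W : 𝓞 F := algebraMap (𝓞 K) (𝓞 F) hω.toInteger
  have hW : ((W : 𝓞 F) : F) = algebraMap K F ω := rfl
  have hWrel : W ^ 2 + W + 1 = 0 := by
    apply RingOfIntegers.ext
    change (algebraMap K F ω) ^ 2 + algebraMap K F ω + 1 = 0
    exact w_relF hω
  have hroot := g_root hω (DCls.ne hD) hs3 g
  -- `3 ∉ w`
  have h3w : (3 : 𝓞 F) ∉ w.asIdeal := by
    intro h3
    -- `D = e + 9 a`
    obtain ⟨e, a, he, hDe⟩ : ∃ e a : ℤ, e ^ 2 = 1 ∧ (D : ℤ) = e + 9 * a := by
      rcases hD.2.2 with h9 | h9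
      · exact ⟨1, (D : ℤ) / 9, by norm_num, by omega⟩
      · exact ⟨-1, (D : ℤ) / 9 + 1, by norm_num, by omega⟩
    set lamF : F := 2 * algebraMap K F ω + 1 with hlam
    have hrelF := w_relF (F := F) hω
    have hlam2 : lamF ^ 2 = -3 := by rw [hlam]; linear_combination 4 * hrelF
    have hlam0 : lamF ≠ 0 := by
      intro h0
      rw [h0] at hlam2
      norm_num at hlam2
    set t : F := (s - e) / lamF with ht
    have hst : s = e + lamF * t := by rw [ht]; field_simp; ring
    have heF : (e : F) ^ 2 = 1 := by exact_mod_cast congrArg (Int.cast : ℤ → F) he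
    have hDF : (D : F) = e + 9 * a := by exact_mod_cast congrArg (Int.cast : ℤ → F) hDe
    have hpoly : t ^ 3 - e * lamF * t ^ 2 - t - a * lamF = 0 := by
      have h1 : (3 * lamF) ≠ 0 := mul_ne_zero (by norm_num) hlam0
      apply mul_left_cancel₀ h1
      have h2 := hs3
      rw [hst, hDF] at h2
      linear_combination -h2 + (lamF * t ^ 3 - 3 * a) * hlam2 + (e + 3 * lamF * t) * heF
    let LamO : 𝓞 F := 2 * W + 1
    have hLamO : (algebraMap (𝓞 F) F LamO) = lamF := by
      change (algebraMap (𝓞 F) F) (2 * W + 1) = _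
      rw [map_add, map_mul, map_ofNat, map_one]
      rfl
    let eL : 𝓞 F := (e : 𝓞 F) * LamO
    let aL : 𝓞 F := (a : 𝓞 F) * LamO
    have heL : algebraMap (𝓞 F) F eL = e * lamF := by
      change algebraMap (𝓞 F) F ((e : 𝓞 F) * LamO) = _
      rw [map_mul, hLamO, map_intCast]
    have haL : algebraMap (𝓞 F) F aL = a * lamF := by
      change algebraMap (𝓞 F) F ((a : 𝓞 F) * LamO) = _
      rw [map_mul, hLamO, map_intCast]
    have htint : IsIntegral ℤ t := by
      refine isIntegral_trans (A := 𝓞 F) t ?_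
      refine ⟨X ^ 3 - C eL * X ^ 2 - X - C aL, ?_, ?_⟩
      · monicity!
      · simp only [eval₂_sub, eval₂_mul, eval₂_pow, eval₂_X, eval₂_C]
        rw [heL, haL]
        linear_combination hpoly
    let tO : 𝓞 F := ⟨t, htint⟩
    have h4 := hg tO
    have hgl : g lamF = lamF := by
      rw [hlam, map_add, map_mul, AlgEquiv.commutes, map_one, map_ofNat]
    have hgt : lamF * g t = g s - e := by
      have h5 := congrArg g hst
      rw [map_add, map_mul, hgl, map_intCast] at h5
      rw [h5]; ring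
    have hlt : lamF * t = s - e := by rw [hst]; ring
    have hunitW : W * W ^ 2 = 1 := by linear_combination (W - 1) * hWrel
    have hxw : x ∈ w.asIdeal := by
      rcases hroot with h | h | h
      · exact absurd h hgs
      · have h5 : g • tO - tO = -W ^ 2 * x := by
          apply RingOfIntegers.ext
          change g t - t = -(algebraMap K F ω) ^ 2 * s
          apply mul_left_cancel₀ hlam0
          rw [mul_sub, hgt, hlt, h, hlam]
          linear_combination (s * (2 * (algebraMap K F ω) - 1)) * hrelF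
        rw [h5] at h4
        have h6 := w.asIdeal.mul_mem_left (-W) h4
        have h7 : -W * (-W ^ 2 * x) = x := by linear_combination x * hunitW
        rwa [h7] at h6
      · have h5 : g • tO - tO = W * x := by
          apply RingOfIntegers.ext
          change g t - t = (algebraMap K F ω) * s
          apply mul_left_cancel₀ hlam0
          rw [mul_sub, hgt, hlt, h, hlam]
          linear_combination (-s) * hrelF
        rw [h5] at h4
        have h6 := w.asIdeal.mul_mem_left (W ^ 2) h4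
        have h7 : W ^ 2 * (W * x) = x := by linear_combination x * hunitW
        rwa [h7] at h6
    have hDw : (D : 𝓞 F) ∈ w.asIdeal := by
      rw [← hx3]
      exact Ideal.pow_mem_of_mem _ hxw 3 (by norm_num)
    apply w.isPrime.ne_top
    rw [Ideal.eq_top_iff_one]
    have h8 : (1 : 𝓞 F) = e * D - 3 * (3 * (e * a)) := by
      have h9 : (D : 𝓞 F) = e + 9 * a := by exact_mod_cast congrArg (Int.cast : ℤ → 𝓞 F) hDe
      have h10 : (e : 𝓞 F) ^ 2 = 1 := by exact_mod_cast congrArg (Int.cast : ℤ → 𝓞 F) he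
      rw [h9]; linear_combination -h10
    rw [h8]
    exact w.asIdeal.sub_mem (w.asIdeal.mul_mem_left _ hDw) (w.asIdeal.mul_mem_right _ h3)
  refine ⟨h3w, ?_⟩
  have hxw : x ∈ w.asIdeal := by
    have h4 := hg x
    rcases hroot with h | h | h
    · exact absurd h hgs
    · have h5 : g • x - x = (W - 1) * x := by
        apply RingOfIntegers.ext
        change g s - s = ((algebraMap K F ω) - 1) * s
        rw [h]; ring
      rw [h5] at h4
      refine (w.isPrime.mem_or_mem h4).resolve_left fun h6 => h3w ?_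
      have h7 : (3 : 𝓞 F) = -(W + 2) * (W - 1) := by linear_combination hWrel
      rw [h7]
      exact w.asIdeal.mul_mem_left _ h6
    · have h5 : g • x - x = (W ^ 2 - 1) * x := by
        apply RingOfIntegers.ext
        change g s - s = ((algebraMap K F ω) ^ 2 - 1) * s
        rw [h]; ring
      rw [h5] at h4
      refine (w.isPrime.mem_or_mem h4).resolve_left fun h6 => h3w ?_
      have h7 : (3 : 𝓞 F) = -(W ^ 2 + 2) * (W ^ 2 - 1) := by
        linear_combination (W ^ 2 - W + 1) * hWrel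
      rw [h7]
      exact w.asIdeal.mul_mem_left _ h6
  have hDw : (D : 𝓞 F) ∈ w.asIdeal := by
    rw [← hx3]
    exact Ideal.pow_mem_of_mem _ hxw 3 (by norm_num)
  -- a prime divisor of `D` in `w`
  have hfac : ∀ m : ℕ, m ≠ 0 → (m : 𝓞 F) ∈ w.asIdeal → ∃ p : ℕ, p.Prime ∧ p ∣ m ∧
      (p : 𝓞 F) ∈ w.asIdeal := by
    intro m
    induction m using Nat.strong_induction_on with
    | _ m ih =>
      intro hm hmw
      by_cases hm1 : m = 1
      · exfalso
        apply w.isPrime.ne_top
        rw [Ideal.eq_top_iff_one]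
        rw [hm1, Nat.cast_one] at hmw
        exact hmw
      · obtain ⟨p, hp, k, hk⟩ := Nat.exists_prime_and_dvd hm1
        rw [hk, Nat.cast_mul] at hmw
        rcases w.isPrime.mem_or_mem hmw with h | h
        · exact ⟨p, hp, ⟨k, hk⟩, h⟩
        · have hk0 : k ≠ 0 := by rintro rfl; simp at hk; exact hm hk
          have hlt : k < m := by
            rw [hk]
            exact lt_mul_of_one_lt_left (Nat.pos_of_ne_zero hk0) hp.one_lt
          obtain ⟨q, h1, h2, h3⟩ := ih k hlt hk0 h
          exact ⟨q, h1, h2.trans ⟨p, by rw [hk]; ring⟩, h3⟩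
  obtain ⟨p, hp, hpD, hpw⟩ := hfac D (DCls.ne hD) hDw
  intro y hy
  have hlo := und_lies (F := K) w
  have h1 : y ^ 2 + 1 ∈ (und (F := K) w).asIdeal := (mem_under_of_lies hlo _).2 hy
  have h2 : (p : 𝓞 K) ∈ (und (F := K) w).asIdeal := by
    rw [mem_under_of_lies hlo, map_natCast]
    exact hpw
  exact no_sqrt hp (hD.2.1 p hp hpD).1 _ h2 y h1

end

/-- PIECE E2 -/
theorem piece : P_E2 := by
  intro K F _ _ _ _ _ _ h
  exact ⟨isGalois_of_gen h, finrank_of_gen h, ram_of_gen h⟩

end Pool.Agent.W2helper89.TQE2
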